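import Pool.Agent.N848.OL.Stm

/-!
# Project OL (helper848), leaf ORB (helper507): fixed classes modulo `p`-th powers
-/

set_option autoImplicit false

namespace Pool.Agent.N507.OL.ORB

/-- the endomorphism of the multiplicative group, written additively -/
noncomputable def S {K' : Type} [Field K'] (σ : K' ≃+* K') : Module.End ℤ (Additive K'ˣ) :=
  (MonoidHom.toAdditive (Units.map (σ : K' →* K'))).toIntLinearMap

lemma S_val {K' : Type} [Field K'] (σ : K' ≃+* K') (m : Additive K'ˣ) :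
    ((Additive.toMul (S σ m) : K'ˣ) : K') = σ ((Additive.toMul m : K'ˣ) : K') := rfl

lemma S_pow {K' : Type} [Field K'] (σ : K' ≃+* K') (n : ℕ) (m : Additive K'ˣ) :
    ((Additive.toMul ((S σ ^ n) m) : K'ˣ) : K') = (σ ^ n) ((Additive.toMul m : K'ˣ) : K') := by
  induction n with
  | zero => rfl
  | succ n ih =>
    rw [pow_succ', Module.End.mul_apply, S_val, ih, pow_succ']
    rfl

lemma D_pow {K' : Type} [Field K'] (σ : K' ≃+* K') (n : ℕ) (m : Additive K'ˣ) :
    ((Additive.toMul (((S σ + (-1)) ^ n) m) : K'ˣ) : K') =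
      (fun x => σ x / x)^[n] ((Additive.toMul m : K'ˣ) : K') := by
  induction n with
  | zero => rfl
  | succ n ih =>
    rw [pow_succ', Module.End.mul_apply, Function.iterate_succ_apply', ← ih]
    have h1 : (S σ + (-1)) (((S σ + (-1)) ^ n) m) =
        S σ (((S σ + (-1)) ^ n) m) - ((S σ + (-1)) ^ n) m := by
      rw [sub_eq_add_neg]
      rfl
    rw [h1, toMul_sub, Units.val_div_eq_div_val, S_val]

lemma root (p : ℕ) [hp : Fact p.Prime] {K' : Type} [Field K'] (σ : K' ≃+* K')
    (hσ : ∀ x, (σ ^ p) x = x) {f : K'} (hf : f ≠ 0) :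
    ∃ y : K', (fun x => σ x / x)^[p] f = y ^ p := by
  have hS : S σ ^ p = 1 := by
    apply LinearMap.ext
    intro m
    apply Additive.toMul.injective
    apply Units.ext
    rw [S_pow, hσ]
    rfl
  obtain ⟨r, hr⟩ := (Commute.neg_one_right (S σ)).exists_add_pow_prime_eq hp.out
  obtain ⟨g, hg⟩ : ∃ g : Module.End ℤ (Additive K'ˣ), (S σ + (-1)) ^ p = (p : Module.End ℤ (Additive K'ˣ)) * g := by
    rcases hp.out.eq_two_or_odd' with h2 | h2
    · refine ⟨1 + S σ * (-1) * r, ?_⟩
      rw [hr, hS]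
      subst h2
      rw [mul_add]
      have e1 : ((-1 : Module.End ℤ (Additive K'ˣ))) ^ 2 = 1 := by simp
      rw [e1]
      simp only [Nat.cast_ofNat, mul_one, mul_assoc]
      norm_num
    · refine ⟨S σ * (-1) * r, ?_⟩
      rw [hr, hS, h2.neg_one_pow]
      simp only [mul_assoc]
      simp
  obtain ⟨m, hm⟩ : ∃ m : Additive K'ˣ, m = Additive.ofMul (Units.mk0 f hf) := ⟨_, rfl⟩
  have h1 := D_pow σ p m
  rw [hg, Module.End.mul_apply, Module.End.natCast_apply, toMul_nsmul, Units.val_pow_eq_pow_val] at h1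
  refine ⟨((Additive.toMul (g m) : K'ˣ) : K'), ?_⟩
  rw [h1, hm]
  rfl

theorem t_ORB : Pool.Agent.N848.OL.S_ORB := by
  intro p hp K' _ σ C hσ hC f hf hCf hnp
  have hall : ∀ n : ℕ, (fun x => σ x / x)^[n] f ≠ 0 ∧ C ((fun x => σ x / x)^[n] f) := by
    intro n
    induction n with
    | zero => exact ⟨hf, hCf⟩
    | succ n ih =>
      rw [Function.iterate_succ_apply']
      refine ⟨?_, hC _ ih.1 ih.2⟩
      exact div_ne_zero ((map_ne_zero_iff σ σ.injective).2 ih.1) ih.1
  have hex : ∃ n : ℕ, ∃ y : K', (fun x => σ x / x)^[n] f = y ^ p := ⟨p, root p σ hσ hf⟩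
  classical
  obtain ⟨y, hy⟩ := Nat.find_spec hex
  have hpos : 0 < Nat.find hex := by
    rw [Nat.pos_iff_ne_zero]
    intro h0
    rw [h0] at hy
    exact hnp ⟨y, hy⟩
  obtain ⟨i, hi⟩ : ∃ i, Nat.find hex = i + 1 := ⟨Nat.find hex - 1, by omega⟩
  have hmin := Nat.find_min hex (by omega : i < Nat.find hex)
  rw [hi, Function.iterate_succ_apply'] at hy
  refine ⟨(fun x => σ x / x)^[i] f, y, (hall i).1, ?_, (hall i).2, hmin, ?_⟩
  · intro hy0
    rw [hy0, zero_pow hp.out.ne_zero] at hy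
    have h1 := (hall (i + 1)).1
    rw [Function.iterate_succ_apply'] at h1
    exact h1 hy
  · rw [← hy]
    have h1 := (hall i).1
    field_simp

end Pool.Agent.N507.OL.ORB
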